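import Pool.Agent.R536.ME.Hard

/-!
# Computing the Morse ensemble polynomial is `#P`-hard

The computation of the Morse ensemble polynomial of a finite simplicial complex, given by the list
of all its simplices, is `#P`-hard under polynomial-time Turing reductions, already for complexes
of dimension `2`.

The reduction is from the permanent.  From a square 0-1 matrix `A` with `n` rows a
`2`-dimensional complex `K` is computed with `ME_K(1, -1, 1) = ± 2 ^ n * perm A`.
-/

set_option autoImplicit false

namespace Pool.Agent.Results.MP_8e5830_lc.MorseHard

open Pool.Agent.NPC Pool.Agent.NPC.Cnt Pool.Agent.NPC.R536ME

/-- `O` solves the problem of computing the Morse ensemble polynomial on the complexes with the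
property `P`: for the code of the list `K` of all simplices of such a complex it returns the code
of a list of the monomials with nonzero coefficient of the polynomial, together with their
coefficients in binary.  Its behaviour on all other strings is arbitrary. -/
def ComputesMEOn (P : Finset (Finset ℕ) → Prop) (O : List Bool → List Bool) : Prop :=
  ∀ K : List (List ℕ), IsInput K → P (cplx K) →
    ∃ L : List (List ℕ × ℕ), O (bits K) = bits L ∧ IsOutput (cplx K) L

/-- The problem of computing the Morse ensemble polynomial of the complexes with the property `P`
is `#P`-hard under polynomial-time Turing reductions: every function in `#P` reduces to every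
function that solves the problem. -/
def MESharpPHard (P : Finset (Finset ℕ) → Prop) : Prop :=
  ∀ O : List Bool → List Bool, ComputesMEOn P O → ∀ f, SharpP f → TuringReducesTo f O

/-- Computing the Morse ensemble polynomial is `#P`-hard under polynomial-time Turing reductions
for the complexes of dimension `2`, and hence for all complexes. -/
theorem result : MESharpPHard (fun X => dim X = 2) ∧ MESharpPHard (fun _ => True) := by
  have h : MESharpPHard (fun X => dim X = 2) := fun O hO f hf => me_hard O hO f hf
  exact ⟨h, fun O hO f hf => h O (fun K hK _ => hO K hK trivial) f hf⟩

end Pool.Agent.Results.MP_8e5830_lc.MorseHard
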